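import Mathlib

/-!
Lines with a given order of contact with a subscheme of projective space which is defined by few
forms: a system of fewer polynomials than variables without constant terms has a nontrivial zero
(Krull's height theorem), and a limit argument.
-/

set_option autoImplicit false

namespace Pool.Agent.T6.H51.SC

open MvPolynomial

/-! ### Common zeros of polynomials -/

section NZ

variable {τ : Type}

/-- The prime ideal of the polynomials which vanish when the variables of `T` are zero. -/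
noncomputable def pr (T : Set τ) : Ideal (MvPolynomial τ ℂ) :=
  RingHom.ker (aeval (fun s => @ite _ (s ∈ T) (Classical.propDecidable _) 0 (X s)) :
    MvPolynomial τ ℂ →ₐ[ℂ] MvPolynomial τ ℂ).toRingHom

/-- The substitution. -/
noncomputable def kil (T : Set τ) : MvPolynomial τ ℂ →ₐ[ℂ] MvPolynomial τ ℂ :=
  aeval (fun s => @ite _ (s ∈ T) (Classical.propDecidable _) 0 (X s))

instance (T : Set τ) : (pr T).IsPrime := RingHom.ker_isPrime _

theorem mem_pr {T : Set τ} (x : MvPolynomial τ ℂ) : x ∈ pr T ↔ kil T x = 0 := Iff.rfl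

theorem kil_pos {T : Set τ} {s : τ} (h : s ∈ T) : kil T (X s : MvPolynomial τ ℂ) = 0 := by
  rw [kil, aeval_X, if_pos h]

theorem kil_neg {T : Set τ} {s : τ} (h : s ∉ T) : kil T (X s : MvPolynomial τ ℂ) = X s := by
  rw [kil, aeval_X, if_neg h]

theorem X_mem {T : Set τ} {s : τ} : (X s : MvPolynomial τ ℂ) ∈ pr T ↔ s ∈ T := by
  rw [mem_pr]
  constructor
  · intro h
    by_contra hc
    rw [kil_neg hc] at h
    exact X_ne_zero _ h
  · exact kil_pos

theorem kil_mono {T T' : Set τ} (h : T ⊆ T') (p : MvPolynomial τ ℂ) :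
    kil T' (kil T p) = kil T' p := by
  have h1 : (kil T').comp (kil T) = kil T' := by
    apply MvPolynomial.algHom_ext
    intro s
    rw [AlgHom.comp_apply]
    by_cases hs : s ∈ T
    · rw [kil_pos hs, kil_pos (h hs), map_zero]
    · rw [kil_neg hs]
  exact DFunLike.congr_fun h1 p

theorem pr_mono {T T' : Set τ} (h : T ⊆ T') : pr T ≤ pr T' := by
  intro p hp
  rw [mem_pr] at hp ⊢
  rw [← kil_mono h, hp, map_zero]

theorem ht_finset [DecidableEq τ] (T : Finset τ) : (T.card : ℕ∞) ≤ (pr (T : Set τ)).height := by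
  induction T using Finset.induction_on with
  | empty =>
    rw [Finset.card_empty, Nat.cast_zero]
    exact zero_le
  | insert s T hs ih =>
    have h2 : pr (T : Set τ) < pr ((insert s T : Finset τ) : Set τ) := by
      refine lt_of_le_of_ne (pr_mono (by simp)) fun he => ?_
      have h1 : (X s : MvPolynomial τ ℂ) ∈ pr ((insert s T : Finset τ) : Set τ) :=
        X_mem.2 (by simp)
      rw [← he, X_mem] at h1
      exact hs (by simpa using h1)
    have h3 := Ideal.height_add_one_le_of_lt_of_isPrime h2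
    rw [Finset.card_insert_of_notMem hs, Nat.cast_add, Nat.cast_one]
    calc (T.card : ℕ∞) + 1 ≤ (pr (T : Set τ)).height + 1 := by
          exact add_le_add ih le_rfl
      _ ≤ _ := h3

/-- Fewer polynomials than variables, which vanish at the origin, have a common zero different
from the origin. -/
theorem nz [Fintype τ] {ι : Type} [Fintype ι] (f : ι → MvPolynomial τ ℂ)
    (h0 : ∀ i, eval 0 (f i) = 0) (hc : Fintype.card ι < Fintype.card τ) :
    ∃ a : τ → ℂ, a ≠ 0 ∧ ∀ i, eval a (f i) = 0 := by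
  classical
  have hmem : ∀ q : MvPolynomial τ ℂ, q ∈ pr (Set.univ : Set τ) ↔ eval 0 q = 0 := by
    intro q
    rw [mem_pr]
    have h1 : kil (Set.univ : Set τ) = (Algebra.ofId ℂ (MvPolynomial τ ℂ)).comp
        (aeval (0 : τ → ℂ)) := by
      apply MvPolynomial.algHom_ext
      intro s
      rw [kil_pos (Set.mem_univ s), AlgHom.comp_apply, aeval_X, Pi.zero_apply, map_zero]
    rw [h1, AlgHom.comp_apply]
    have h2 : (Algebra.ofId ℂ (MvPolynomial τ ℂ)) ((aeval (0 : τ → ℂ)) q) = C (eval 0 q) := by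
      rw [MvPolynomial.aeval_eq_eval]
      rfl
    rw [h2]
    exact C_eq_zero
  let I : Ideal (MvPolynomial τ ℂ) := Ideal.span (Set.range f)
  have hIm : I ≤ pr Set.univ := by
    apply Ideal.span_le.2
    rintro x ⟨i, rfl⟩
    exact (hmem _).2 (h0 i)
  obtain ⟨P, hP, hPm⟩ := Ideal.exists_minimalPrimes_le hIm
  have hPp : P.IsPrime := hP.1.1
  have hPh : P.height ≤ (Fintype.card ι : ℕ∞) := by
    have hP' : P ∈ (Ideal.span ((Finset.univ.image f : Finset (MvPolynomial τ ℂ)) :
        Set (MvPolynomial τ ℂ))).minimalPrimes := by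
      simpa [I] using hP
    have := Ideal.height_le_card_of_mem_minimalPrimes_span_finset hP'
    refine this.trans ?_
    have h2 : (Finset.univ.image f).card ≤ Fintype.card ι := Finset.card_image_le
    exact_mod_cast h2
  have hPne : P ≠ pr Set.univ := by
    intro he
    have h1 := ht_finset (Finset.univ : Finset τ)
    rw [Finset.coe_univ, ← he, Finset.card_univ] at h1
    have h2 := h1.trans hPh
    have h3 : Fintype.card τ ≤ Fintype.card ι := by exact_mod_cast h2
    omega
  -- a point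
  by_contra hcon
  push Not at hcon
  apply hPne
  refine le_antisymm hPm fun q hq => ?_
  rw [hmem] at hq
  rw [← MvPolynomial.IsPrime.vanishingIdeal_zeroLocus P (K := ℂ)]
  rw [MvPolynomial.mem_vanishingIdeal_iff]
  intro a ha
  have ha0 : a = 0 := by
    by_contra hne
    obtain ⟨i, hi⟩ := hcon a hne
    apply hi
    have h1 : f i ∈ P := hP.1.2 (Ideal.subset_span ⟨i, rfl⟩)
    have h2 := (MvPolynomial.mem_zeroLocus_iff.1 ha) _ h1
    rwa [MvPolynomial.aeval_eq_eval] at h2
  rw [ha0, MvPolynomial.aeval_eq_eval]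
  exact hq

end NZ

/-! ### Secant lines through a point outside -/

/-- The binary form of degree `e` with the coefficients `c`. -/
noncomputable def bform (e : ℕ) (c : Fin (e + 1) → ℂ) (s t : ℂ) : ℂ :=
  ∑ l : Fin (e + 1), c l * s ^ (e - (l : ℕ)) * t ^ (l : ℕ)

/-- Secant lines. -/
def Sec {N m : ℕ} (k : ℕ) (F : Fin m → MvPolynomial (Fin (N + 1)) ℂ) (d : Fin m → ℕ)
    (v p : Fin (N + 1) → ℂ) : Prop :=
  ∃ c : Fin (k + 1) → ℂ, c ≠ 0 ∧ ∀ i, ∃ h : Fin (d i - k + 1) → ℂ, ∀ s t : ℂ,
    eval (s • v + t • p) (F i) = bform k c s t * bform (d i - k) h s t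

section Out

variable {N k : ℕ} {i0 : Fin (N + 1)}

/-- The variables. -/
abbrev Va (i0 : Fin (N + 1)) (k : ℕ) : Type := {i : Fin (N + 1) // i ≠ i0} ⊕ Fin k

/-- The vector. -/
def vv (a : Va i0 k → ℂ) : Fin (N + 1) → ℂ :=
  fun j => if h : j ≠ i0 then a (Sum.inl ⟨j, h⟩) else 0

/-- The monic polynomial. -/
noncomputable def mo {A : Type} [CommRing A] (c : Fin k → A) : Polynomial A :=
  Polynomial.X ^ k + ∑ l : Fin k, Polynomial.C (c l) * Polynomial.X ^ (l : ℕ)

theorem deg_sum {A : Type} [CommRing A] (c : Fin k → A) :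
    (∑ l : Fin k, Polynomial.C (c l) * Polynomial.X ^ (l : ℕ)).degree < (k : WithBot ℕ) := by
  refine (Polynomial.degree_sum_le _ _).trans_lt
    ((Finset.sup_lt_iff (WithBot.bot_lt_coe k)).2 fun l _ => ?_)
  exact (Polynomial.degree_C_mul_X_pow_le _ _).trans_lt (Nat.cast_lt.2 l.2)

theorem mo_monic {A : Type} [CommRing A] (c : Fin k → A) : (mo c).Monic :=
  Polynomial.monic_X_pow_add (deg_sum c)

theorem mo_natDegree {A : Type} [CommRing A] [Nontrivial A] (c : Fin k → A) :
    (mo c).natDegree = k := by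
  unfold mo
  rw [Polynomial.natDegree_add_eq_left_of_degree_lt, Polynomial.natDegree_X_pow]
  rw [Polynomial.degree_X_pow]
  exact deg_sum c

theorem mo_coeff {A : Type} [CommRing A] (c : Fin k → A) (l : Fin k) :
    (mo c).coeff l = c l := by
  unfold mo
  rw [Polynomial.coeff_add, Polynomial.coeff_X_pow, if_neg (by omega), zero_add,
    Polynomial.finsetSum_coeff, Finset.sum_eq_single l]
  · simp
  · intro l' _ hl
    rw [Polynomial.coeff_C_mul, Polynomial.coeff_X_pow, if_neg, mul_zero]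
    intro h
    exact hl (Fin.ext h.symm)
  · intro h
    exact absurd (Finset.mem_univ l) h

theorem mo_map {A B : Type} [CommRing A] [CommRing B] (f : A →+* B) (c : Fin k → A) :
    (mo c).map f = mo (fun l => f (c l)) := by
  unfold mo
  simp [Polynomial.map_sum]

/-- The restriction to the line. -/
noncomputable def lin (v p : Fin (N + 1) → ℂ) (F : MvPolynomial (Fin (N + 1)) ℂ) :
    Polynomial ℂ :=
  aeval (fun j => Polynomial.C (v j) + Polynomial.C (p j) * Polynomial.X) F

theorem lin_eval (v p : Fin (N + 1) → ℂ) (F : MvPolynomial (Fin (N + 1)) ℂ) (t : ℂ) :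
    (lin v p F).eval t = eval (v + t • p) F := by
  unfold lin
  have h1 : (Polynomial.aeval t : Polynomial ℂ →ₐ[ℂ] ℂ).comp
      (aeval (fun j => Polynomial.C (v j) + Polynomial.C (p j) * Polynomial.X)) =
      (aeval (v + t • p) : MvPolynomial (Fin (N + 1)) ℂ →ₐ[ℂ] ℂ) := by
    apply MvPolynomial.algHom_ext
    intro j
    rw [AlgHom.comp_apply, aeval_X, aeval_X, map_add, map_mul, Polynomial.aeval_C,
      Polynomial.aeval_C, Polynomial.aeval_X]
    show v j + p j * t = v j + t * p j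
    ring
  have h2 := DFunLike.congr_fun h1 F
  rw [AlgHom.comp_apply, MvPolynomial.aeval_eq_eval] at h2
  rw [← h2, Polynomial.coe_aeval_eq_eval]

/-- The generic restriction. -/
noncomputable def gen (i0 : Fin (N + 1)) (k : ℕ) (p : Fin (N + 1) → ℂ)
    (F : MvPolynomial (Fin (N + 1)) ℂ) : Polynomial (MvPolynomial (Va i0 k) ℂ) :=
  aeval (fun j => Polynomial.C (if h : j ≠ i0 then X (Sum.inl ⟨j, h⟩) else 0) +
    Polynomial.C (C (p j)) * Polynomial.X) F

theorem gen_map (p : Fin (N + 1) → ℂ) (F : MvPolynomial (Fin (N + 1)) ℂ) (a : Va i0 k → ℂ) :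
    (gen i0 k p F).map (eval a) = lin (vv a) p F := by
  unfold gen lin
  have h1 : ((Polynomial.mapAlgHom (aeval a : MvPolynomial (Va i0 k) ℂ →ₐ[ℂ] ℂ)).comp
      (aeval (fun j => Polynomial.C (if h : j ≠ i0 then X (Sum.inl ⟨j, h⟩) else 0) +
        Polynomial.C (C (p j)) * Polynomial.X))) =
      (aeval (fun j => Polynomial.C (vv a j) + Polynomial.C (p j) * Polynomial.X) :
        MvPolynomial (Fin (N + 1)) ℂ →ₐ[ℂ] Polynomial ℂ) := by
    apply MvPolynomial.algHom_ext
    intro j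
    rw [AlgHom.comp_apply, aeval_X, aeval_X, map_add, map_mul]
    by_cases hj : j ≠ i0
    · simp [vv, hj]
    · simp [vv, hj]
  have h2 := DFunLike.congr_fun h1 F
  rw [← h2, AlgHom.comp_apply]
  ext n
  rw [Polynomial.coeff_map]
  change _ = (Polynomial.map (RingHomClass.toRingHom (aeval a : MvPolynomial (Va i0 k) ℂ →ₐ[ℂ] ℂ)) _).coeff n
  rw [Polynomial.coeff_map]
  change _ = (aeval a : MvPolynomial (Va i0 k) ℂ →ₐ[ℂ] ℂ) _
  rw [MvPolynomial.aeval_eq_eval]

theorem hom_smul {F : MvPolynomial (Fin (N + 1)) ℂ} {d : ℕ} (hF : F.IsHomogeneous d) (c : ℂ)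
    (x : Fin (N + 1) → ℂ) : eval (c • x) F = c ^ d * eval x F := by
  rw [MvPolynomial.eval_eq', MvPolynomial.eval_eq', Finset.mul_sum]
  refine Finset.sum_congr rfl fun e he => ?_
  have h1 : ∑ i, e i = d := by
    rw [hF.degree_eq_sum_deg_support he]
    symm
    exact Finset.sum_subset (Finset.subset_univ _) fun i _ hi => by simpa using hi
  simp only [Pi.smul_apply, smul_eq_mul, mul_pow, Finset.prod_mul_distrib,
    Finset.prod_pow_eq_pow_sum, h1]
  ring

theorem lin_zero {F : MvPolynomial (Fin (N + 1)) ℂ} {d : ℕ} (hF : F.IsHomogeneous d)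
    (p : Fin (N + 1) → ℂ) : lin 0 p F = Polynomial.C (eval p F) * Polynomial.X ^ d := by
  apply Polynomial.funext
  intro t
  rw [lin_eval, zero_add, Polynomial.eval_mul, Polynomial.eval_C, Polynomial.eval_pow,
    Polynomial.eval_X, hom_smul hF, mul_comm]

/-- The bound for the degree. -/
theorem lin_natDegree {F : MvPolynomial (Fin (N + 1)) ℂ} {d : ℕ} (hF : F.IsHomogeneous d)
    (v p : Fin (N + 1) → ℂ) : (lin v p F).natDegree ≤ d := by
  unfold lin
  rw [MvPolynomial.aeval_def, MvPolynomial.eval₂_eq']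
  refine Polynomial.natDegree_sum_le_of_forall_le _ _ fun e he => ?_
  have h1 : ∑ i, e i = d := by
    rw [hF.degree_eq_sum_deg_support he]
    symm
    exact Finset.sum_subset (Finset.subset_univ _) fun i _ hi => by simpa using hi
  refine (Polynomial.natDegree_C_mul_le _ _).trans ?_
  refine (Polynomial.natDegree_prod_le _ _).trans ?_
  rw [← h1]
  refine Finset.sum_le_sum fun i _ => ?_
  refine (Polynomial.natDegree_pow_le).trans ?_
  have h3 : (Polynomial.C (v i) + Polynomial.C (p i) * Polynomial.X).natDegree ≤ 1 := by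
    refine (Polynomial.natDegree_add_le _ _).trans ?_
    rw [Polynomial.natDegree_C]
    exact max_le (Nat.zero_le _) ((Polynomial.natDegree_C_mul_le _ _).trans Polynomial.natDegree_X_le)
  calc e i * _ ≤ e i * 1 := Nat.mul_le_mul_left _ h3
    _ = e i := mul_one _

theorem bform_coeff (P : Polynomial ℂ) {d : ℕ} (hP : P.natDegree ≤ d) {s : ℂ} (hs : s ≠ 0) (t : ℂ) :
    bform d (fun l => P.coeff l) s t = s ^ d * P.eval (t / s) := by
  rw [Polynomial.eval_eq_sum_range' (Nat.lt_succ_of_le hP), Finset.sum_range, Finset.mul_sum]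
  unfold bform
  refine Finset.sum_congr rfl fun l _ => ?_
  have h1 : s ^ d = s ^ (d - (l : ℕ)) * s ^ (l : ℕ) := by
    rw [← pow_add]
    congr 1
    omega
  rw [h1, div_pow]
  field_simp

theorem bform_cont (e : ℕ) (c : Fin (e + 1) → ℂ) (t : ℂ) : Continuous fun s => bform e c s t := by
  unfold bform
  fun_prop

/-- Two identities. -/
theorem ext0 {f g : ℂ → ℂ} (hf : Continuous f) (hg : Continuous g) (h : ∀ s, s ≠ 0 → f s = g s)
    (s : ℂ) : f s = g s := by
  have := Continuous.ext_on (dense_compl_singleton (0 : ℂ)) hf hg (fun s hs => h s hs)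
  rw [this]

theorem sec_of_dvd {F : MvPolynomial (Fin (N + 1)) ℂ} {d k : ℕ} (hF : F.IsHomogeneous d)
    (v p : Fin (N + 1) → ℂ) (g : Polynomial ℂ) (hg : g.Monic) (hgk : g.natDegree = k) (hk : k ≤ d)
    (hdvd : g ∣ lin v p F) : ∃ h : Fin (d - k + 1) → ℂ, ∀ s t : ℂ,
    eval (s • v + t • p) F = bform k (fun l => g.coeff l) s t * bform (d - k) h s t := by
  obtain ⟨q, hq⟩ := hdvd
  have hqd : q.natDegree ≤ d - k := by
    by_cases hq0 : q = 0
    · rw [hq0]; simp
    · have h1 := lin_natDegree hF v p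
      rw [hq, hg.natDegree_mul' hq0, hgk] at h1
      omega
  refine ⟨fun l => q.coeff l, fun s t => ?_⟩
  refine ext0 (f := fun s => eval (s • v + t • p) F)
    (g := fun s => bform k (fun l => g.coeff l) s t * bform (d - k) (fun l => q.coeff l) s t)
    ?_ ?_ ?_ s
  · exact (MvPolynomial.continuous_eval F).comp (by fun_prop)
  · exact (bform_cont _ _ _).mul (bform_cont _ _ _)
  · intro s hs
    show eval (s • v + t • p) F = _
    have h1 : s • v + t • p = s • (v + (t / s) • p) := by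
      rw [smul_add, smul_smul, mul_div_cancel₀ _ hs]
    rw [h1, hom_smul hF, ← lin_eval, hq, Polynomial.eval_mul, bform_coeff g hgk.le hs,
      bform_coeff q hqd hs]
    have h2 : s ^ d = s ^ k * s ^ (d - k) := by
      rw [← pow_add]
      congr 1
      omega
    rw [h2]
    ring

/-- Secant lines through a point outside. -/
theorem out {m : ℕ} (F : Fin m → MvPolynomial (Fin (N + 1)) ℂ) (d : Fin m → ℕ)
    (hF : ∀ i, (F i).IsHomogeneous (d i)) (hd : ∀ i, k ≤ d i) (hN : k * m < N + k)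
    (p : Fin (N + 1) → ℂ) (hp : ∃ i, eval p (F i) ≠ 0) :
    ∃ v : Fin (N + 1) → ℂ, v i0 = 0 ∧ v ≠ 0 ∧ Sec k F d v p := by
  classical
  let g : Polynomial (MvPolynomial (Va i0 k) ℂ) := mo (fun l => X (Sum.inr l))
  have hg : g.Monic := mo_monic _
  let f : Fin m × Fin k → MvPolynomial (Va i0 k) ℂ :=
    fun q => ((gen i0 k p (F q.1)) %ₘ g).coeff (q.2 : ℕ)
  have hgm : ∀ a : Va i0 k → ℂ, g.map (eval a) = mo (fun l => a (Sum.inr l)) := by
    intro a
    rw [mo_map]
    simp
  have hev : ∀ (a : Va i0 k → ℂ) (q : Fin m × Fin k), eval a (f q) =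
      ((lin (vv a) p (F q.1)) %ₘ mo (fun l => a (Sum.inr l))).coeff (q.2 : ℕ) := by
    intro a q
    rw [← gen_map, ← hgm, ← Polynomial.map_modByMonic _ hg, Polynomial.coeff_map]
  have hdeg : ∀ (a : Va i0 k → ℂ) (P : Polynomial ℂ),
      (∀ l : Fin k, (P %ₘ mo (fun l => a (Sum.inr l))).coeff (l : ℕ) = 0) →
      mo (fun l => a (Sum.inr l)) ∣ P := by
    intro a P h
    rw [← Polynomial.modByMonic_eq_zero_iff_dvd (mo_monic _)]
    ext l
    rw [Polynomial.coeff_zero]
    by_cases hl : l < k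
    · exact h ⟨l, hl⟩
    · apply Polynomial.coeff_eq_zero_of_degree_lt
      refine (Polynomial.degree_modByMonic_lt _ (mo_monic _)).trans_le ?_
      rw [Polynomial.degree_eq_natDegree (mo_monic _).ne_zero, mo_natDegree]
      exact_mod_cast not_lt.1 hl
  have h0 : ∀ q, eval 0 (f q) = 0 := by
    intro q
    rw [hev]
    have h1 : vv (0 : Va i0 k → ℂ) = 0 := by
      funext j
      simp [vv]
    have h2 : mo (fun l : Fin k => (0 : Va i0 k → ℂ) (Sum.inr l)) = Polynomial.X ^ k := by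
      simp [mo]
    rw [h1, h2, lin_zero (hF q.1)]
    have h3 : (Polynomial.C (eval p (F q.1)) * Polynomial.X ^ d q.1) %ₘ
        (Polynomial.X ^ k : Polynomial ℂ) = 0 := by
      rw [Polynomial.modByMonic_eq_zero_iff_dvd (Polynomial.monic_X_pow k)]
      exact Dvd.dvd.mul_left (pow_dvd_pow _ (hd q.1)) _
    rw [h3, Polynomial.coeff_zero]
  obtain ⟨a, ha, hfa⟩ := nz f h0 (by
    rw [Fintype.card_prod, Fintype.card_fin, Fintype.card_fin, Fintype.card_sum,
      Fintype.card_fin, Fintype.card_subtype_compl, Fintype.card_fin, Fintype.card_unique]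
    have : m * k = k * m := mul_comm _ _
    omega)
  have hdvd : ∀ i, mo (fun l => a (Sum.inr l)) ∣ lin (vv a) p (F i) := by
    intro i
    refine hdeg a _ fun l => ?_
    rw [← hev a (i, l)]
    exact hfa _
  refine ⟨vv a, by simp [vv], ?_, ?_⟩
  · intro hv
    apply ha
    obtain ⟨i, hi⟩ := hp
    have h1 := hdvd i
    rw [hv, lin_zero (hF i)] at h1
    have h2 : mo (fun l => a (Sum.inr l)) ∣ (Polynomial.X ^ d i : Polynomial ℂ) := by
      have hu : IsUnit (Polynomial.C (eval p (F i))) := Polynomial.isUnit_C.2 (isUnit_iff_ne_zero.2 hi)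
      exact (hu.dvd_mul_left).1 h1
    obtain ⟨j, -, hj⟩ := (dvd_prime_pow Polynomial.prime_X _).1 h2
    have h3 : mo (fun l => a (Sum.inr l)) = (Polynomial.X ^ j : Polynomial ℂ) :=
      Polynomial.eq_of_monic_of_associated (mo_monic _) (Polynomial.monic_X_pow j) hj
    have h4 : j = k := by
      have := congrArg Polynomial.natDegree h3
      rw [mo_natDegree, Polynomial.natDegree_X_pow] at this
      exact this.symm
    funext x
    rcases x with x | l
    · have := congrFun hv x.1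
      simpa [vv, x.2] using this
    · have h5 := mo_coeff (fun l => a (Sum.inr l)) l
      rw [h3, h4, Polynomial.coeff_X_pow, if_neg (by omega)] at h5
      simpa using h5.symm
  · refine ⟨fun l => (mo (fun l => a (Sum.inr l))).coeff l, ?_, fun i => ?_⟩
    · intro hc
      have h1 := congrFun hc (Fin.last k)
      have h2 := (mo_monic (fun l => a (Sum.inr l))).coeff_natDegree
      rw [mo_natDegree] at h2
      simp only [Fin.val_last, Pi.zero_apply] at h1
      rw [h2] at h1
      exact one_ne_zero h1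
    · exact sec_of_dvd (hF i) _ _ _ (mo_monic _) (mo_natDegree _) (hd i) (hdvd i)

end Out

/-! ### Limits -/

open Filter Topology

theorem bform_smul (e : ℕ) (a : ℂ) (c : Fin (e + 1) → ℂ) (s t : ℂ) :
    bform e (a • c) s t = a * bform e c s t := by
  unfold bform
  rw [Finset.mul_sum]
  refine Finset.sum_congr rfl fun l _ => ?_
  rw [Pi.smul_apply, smul_eq_mul]
  ring

theorem bform_scale (e : ℕ) (a : ℂ) (c : Fin (e + 1) → ℂ) (s t : ℂ) :
    bform e c (a * s) t = bform e (fun l => c l * a ^ (e - (l : ℕ))) s t := by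
  unfold bform
  refine Finset.sum_congr rfl fun l _ => ?_
  rw [mul_pow]
  ring

theorem bform_cont2 (e : ℕ) (s t : ℂ) : Continuous fun c : Fin (e + 1) → ℂ => bform e c s t := by
  unfold bform
  fun_prop

/-- The polynomial with the coefficients `c`. -/
noncomputable def po {e : ℕ} (c : Fin (e + 1) → ℂ) : Polynomial ℂ :=
  ∑ l : Fin (e + 1), Polynomial.C (c l) * Polynomial.X ^ (l : ℕ)

theorem po_eval {e : ℕ} (c : Fin (e + 1) → ℂ) (t : ℂ) : (po c).eval t = bform e c 1 t := by
  unfold po bform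
  rw [Polynomial.eval_finsetSum]
  refine Finset.sum_congr rfl fun l _ => ?_
  simp

theorem po_natDegree {e : ℕ} (c : Fin (e + 1) → ℂ) : (po c).natDegree ≤ e := by
  unfold po
  refine Polynomial.natDegree_sum_le_of_forall_le _ _ fun l _ => ?_
  refine (Polynomial.natDegree_C_mul_X_pow_le _ _).trans ?_
  omega

theorem po_ne {e : ℕ} {c : Fin (e + 1) → ℂ} (hc : c ≠ 0) : po c ≠ 0 := by
  intro h
  apply hc
  funext l
  have h1 : (po c).coeff l = c l := by
    unfold po
    rw [Polynomial.finsetSum_coeff, Finset.sum_eq_single l]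
    · simp
    · intro l' _ hl
      rw [Polynomial.coeff_C_mul, Polynomial.coeff_X_pow, if_neg, mul_zero]
      intro h
      exact hl (Fin.ext h.symm)
    · intro h
      exact absurd (Finset.mem_univ l) h
  rw [← h1, h, Polynomial.coeff_zero, Pi.zero_apply]

/-- A norm of a product of two forms. -/
noncomputable def Ps (k e : ℕ) (q : (Fin (k + 1) → ℂ) × (Fin (e + 1) → ℂ)) : ℝ :=
  ∑ a ∈ Finset.range (k + e + 1), ‖bform k q.1 1 (a : ℂ) * bform e q.2 1 (a : ℂ)‖

theorem Ps_cont (k e : ℕ) : Continuous (Ps k e) := by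
  unfold Ps
  refine continuous_finsetSum _ fun a _ => ?_
  exact (((bform_cont2 k 1 a).comp continuous_fst).mul
    ((bform_cont2 e 1 a).comp continuous_snd)).norm

theorem Ps_pos (k e : ℕ) {c : Fin (k + 1) → ℂ} {h : Fin (e + 1) → ℂ} (hc : c ≠ 0) (hh : h ≠ 0) :
    0 < Ps k e (c, h) := by
  have h0 : 0 ≤ Ps k e (c, h) := Finset.sum_nonneg fun a _ => norm_nonneg _
  refine lt_of_le_of_ne h0 fun he => ?_
  have h1 : ∀ a ∈ Finset.range (k + e + 1), ‖bform k c 1 (a : ℂ) * bform e h 1 (a : ℂ)‖ = 0 :=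
    (Finset.sum_eq_zero_iff_of_nonneg fun a _ => norm_nonneg _).1 he.symm
  have h2 : po c * po h = 0 := by
    apply Polynomial.eq_zero_of_natDegree_lt_card_of_eval_eq_zero' (po c * po h)
      ((Finset.range (k + e + 1)).image fun a : ℕ => (a : ℂ))
    · intro x hx
      obtain ⟨a, ha, rfl⟩ := Finset.mem_image.1 hx
      rw [Polynomial.eval_mul, po_eval, po_eval]
      exact norm_eq_zero.1 (h1 a ha)
    · rw [Finset.card_image_of_injective _ Nat.cast_injective, Finset.card_range]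
      refine (Polynomial.natDegree_mul_le).trans_lt ?_
      have := po_natDegree c
      have := po_natDegree h
      omega
  rcases mul_eq_zero.1 h2 with h3 | h3
  · exact po_ne hc h3
  · exact po_ne hh h3

theorem Ps_low (k e : ℕ) : ∃ μ : ℝ, 0 < μ ∧ ∀ (c : Fin (k + 1) → ℂ) (h : Fin (e + 1) → ℂ),
    ‖c‖ = 1 → μ * ‖h‖ ≤ Ps k e (c, h) := by
  have hK : IsCompact (Metric.sphere (0 : Fin (k + 1) → ℂ) 1 ×ˢ
      Metric.sphere (0 : Fin (e + 1) → ℂ) 1) := (isCompact_sphere _ _).prod (isCompact_sphere _ _)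
  have hne : (Metric.sphere (0 : Fin (k + 1) → ℂ) 1 ×ˢ
      Metric.sphere (0 : Fin (e + 1) → ℂ) 1).Nonempty := by
    refine ⟨(fun _ => 1, fun _ => 1), ?_, ?_⟩
    · simp [pi_norm_const]
    · simp [pi_norm_const]
  obtain ⟨q, hq, hmin⟩ := hK.exists_isMinOn hne (Ps_cont k e).continuousOn
  have hq1 : q.1 ≠ 0 := by
    intro h
    have := mem_sphere_zero_iff_norm.1 hq.1
    rw [h, norm_zero] at this
    exact zero_ne_one this
  have hq2 : q.2 ≠ 0 := by
    intro h
    have := mem_sphere_zero_iff_norm.1 hq.2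
    rw [h, norm_zero] at this
    exact zero_ne_one this
  refine ⟨Ps k e q, Ps_pos k e hq1 hq2, fun c h hc => ?_⟩
  by_cases hh : h = 0
  · rw [hh, norm_zero, mul_zero]
    exact Finset.sum_nonneg fun a _ => norm_nonneg _
  · have hn : 0 < ‖h‖ := norm_pos_iff.2 hh
    have h1 : Ps k e q ≤ Ps k e (c, ((‖h‖ : ℂ)⁻¹) • h) := by
      apply hmin
      refine ⟨mem_sphere_zero_iff_norm.2 hc, mem_sphere_zero_iff_norm.2 ?_⟩
      rw [norm_smul, norm_inv, Complex.norm_real, norm_norm, inv_mul_cancel₀ hn.ne']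
    have h2 : Ps k e (c, ((‖h‖ : ℂ)⁻¹) • h) = ‖h‖⁻¹ * Ps k e (c, h) := by
      unfold Ps
      rw [Finset.mul_sum]
      refine Finset.sum_congr rfl fun a _ => ?_
      rw [bform_smul, mul_left_comm, norm_mul, norm_inv, Complex.norm_real, norm_norm]
    rw [h2] at h1
    calc Ps k e q * ‖h‖ ≤ ‖h‖⁻¹ * Ps k e (c, h) * ‖h‖ := by gcongr
      _ = Ps k e (c, h) := by field_simp

theorem normalise {N m k : ℕ} {F : Fin m → MvPolynomial (Fin (N + 1)) ℂ} {d : Fin m → ℕ}
    {v p : Fin (N + 1) → ℂ} (hv : v ≠ 0) (h : Sec k F d v p) :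
    ∃ a : ℂ, ‖a • v‖ = 1 ∧ ∃ c : Fin (k + 1) → ℂ, ‖c‖ = 1 ∧
      ∀ i, ∃ h : Fin (d i - k + 1) → ℂ, ∀ s t : ℂ,
        eval (s • (a • v) + t • p) (F i) = bform k c s t * bform (d i - k) h s t := by
  obtain ⟨c, hc, h⟩ := h
  have hvn : 0 < ‖v‖ := norm_pos_iff.2 hv
  have ha : ((‖v‖ : ℂ)⁻¹) ≠ 0 := inv_ne_zero (by exact_mod_cast hvn.ne')
  set a : ℂ := (‖v‖ : ℂ)⁻¹ with hadef
  set c1 : Fin (k + 1) → ℂ := fun l => c l * a ^ (k - (l : ℕ)) with hc1
  have hc1n : c1 ≠ 0 := by
    intro h0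
    apply hc
    funext l
    have h1 := congrFun h0 l
    simp only [hc1, Pi.zero_apply] at h1
    rcases mul_eq_zero.1 h1 with h2 | h2
    · exact h2
    · exact absurd h2 (pow_ne_zero _ ha)
  have hcn : 0 < ‖c1‖ := norm_pos_iff.2 hc1n
  refine ⟨a, ?_, ((‖c1‖ : ℂ)⁻¹) • c1, ?_, fun i => ?_⟩
  · rw [norm_smul, hadef, norm_inv, Complex.norm_real, norm_norm, inv_mul_cancel₀ hvn.ne']
  · rw [norm_smul, norm_inv, Complex.norm_real, norm_norm, inv_mul_cancel₀ hcn.ne']
  · obtain ⟨h, hh⟩ := h i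
    refine ⟨(‖c1‖ : ℂ) • fun l => h l * a ^ (d i - k - (l : ℕ)), fun s t => ?_⟩
    have h1 := hh (a * s) t
    rw [bform_scale, bform_scale] at h1
    rw [bform_smul, bform_smul]
    have h2 : s • (a • v) + t • p = (a * s) • v + t • p := by
      rw [smul_smul, mul_comm]
    rw [h2, h1]
    have h3 : (‖c1‖ : ℂ) ≠ 0 := by exact_mod_cast hcn.ne'
    field_simp
    exact mul_comm _ _

/-- Secant lines through any point. -/
theorem allp {N m k : ℕ} (F : Fin m → MvPolynomial (Fin (N + 1)) ℂ) (d : Fin m → ℕ)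
    (hF : ∀ i, (F i).IsHomogeneous (d i)) (hd : ∀ i, k ≤ d i) (hN : k * m < N + k) (hN1 : 1 ≤ N)
    (p : Fin (N + 1) → ℂ) (i0 : Fin (N + 1)) (hp0 : p i0 ≠ 0) :
    ∃ v : Fin (N + 1) → ℂ, v i0 = 0 ∧ v ≠ 0 ∧ Sec k F d v p := by
  classical
  by_cases hp : ∃ i, eval p (F i) ≠ 0
  · exact out F d hF hd hN p hp
  push Not at hp
  by_cases hm : m = 0
  · subst hm
    obtain ⟨i1, hi1⟩ : ∃ i1 : Fin (N + 1), i1 ≠ i0 := by
      by_contra hc
      push Not at hc
      have h1 := hc 0
      have h2 := hc (Fin.last N)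
      rw [← h1] at h2
      have := congrArg Fin.val h2
      simp at this
      omega
    refine ⟨Pi.single i1 1, Pi.single_eq_of_ne hi1.symm 1, ?_, fun _ => 1, ?_, fun i => i.elim0⟩
    · intro h
      have := congrFun h i1
      simp at this
    · intro h
      have := congrFun h 0
      simp at this
  -- the perturbed forms
  let G : ℕ → Fin m → MvPolynomial (Fin (N + 1)) ℂ := fun n i =>
    F i + C (((n : ℂ) + 1)⁻¹) * X i0 ^ d i
  have hG : ∀ n i, (G n i).IsHomogeneous (d i) := by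
    intro n i
    exact (hF i).add (isHomogeneous_C_mul_X_pow _ _ _)
  have hGe : ∀ n i x, eval x (G n i) = eval x (F i) + ((n : ℂ) + 1)⁻¹ * x i0 ^ d i := by
    intro n i x
    simp [G]
  have hGp : ∀ n, ∃ i, eval p (G n i) ≠ 0 := by
    intro n
    refine ⟨⟨0, Nat.pos_of_ne_zero hm⟩, ?_⟩
    rw [hGe, hp, zero_add]
    have : ((n : ℂ) + 1) ≠ 0 := by exact_mod_cast n.succ_ne_zero
    exact mul_ne_zero (inv_ne_zero this) (pow_ne_zero _ hp0)
  have hseq : ∀ n, ∃ q : (Fin (N + 1) → ℂ) × (Fin (k + 1) → ℂ),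
      q.1 i0 = 0 ∧ ‖q.1‖ = 1 ∧ ‖q.2‖ = 1 ∧ ∀ i, ∃ h : Fin (d i - k + 1) → ℂ, ∀ s t : ℂ,
        eval (s • q.1 + t • p) (G n i) = bform k q.2 s t * bform (d i - k) h s t := by
    intro n
    obtain ⟨v, hv0, hv, hs⟩ := out (i0 := i0) (G n) d (hG n) hd hN p (hGp n)
    obtain ⟨a, h1, c, h2, h3⟩ := normalise hv hs
    refine ⟨(a • v, c), ?_, h1, h2, h3⟩
    show a * v i0 = 0
    rw [hv0, mul_zero]
  choose q hq0 hq1 hq2 hq3 using hseq
  have hK : IsCompact (Metric.sphere (0 : Fin (N + 1) → ℂ) 1 ×ˢ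
      Metric.sphere (0 : Fin (k + 1) → ℂ) 1) := (isCompact_sphere _ _).prod (isCompact_sphere _ _)
  obtain ⟨⟨v, c⟩, hvc, φ, hφ, hlim⟩ := hK.tendsto_subseq (x := q) fun n =>
    ⟨mem_sphere_zero_iff_norm.2 (hq1 n), mem_sphere_zero_iff_norm.2 (hq2 n)⟩
  have hv1 : ‖v‖ = 1 := mem_sphere_zero_iff_norm.1 hvc.1
  have hc1 : ‖c‖ = 1 := mem_sphere_zero_iff_norm.1 hvc.2
  have hlv : Tendsto (fun n => (q (φ n)).1) atTop (𝓝 v) :=
    (continuous_fst.tendsto _).comp hlim
  have hlc : Tendsto (fun n => (q (φ n)).2) atTop (𝓝 c) :=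
    (continuous_snd.tendsto _).comp hlim
  refine ⟨v, ?_, ?_, c, ?_, fun i => ?_⟩
  · have h1 : Tendsto (fun n => (q (φ n)).1 i0) atTop (𝓝 (v i0)) :=
      ((continuous_apply i0).tendsto _).comp hlv
    have h2 : (fun n => (q (φ n)).1 i0) = fun _ => 0 := by
      funext n
      exact hq0 _
    rw [h2] at h1
    exact tendsto_nhds_unique h1 tendsto_const_nhds |>.symm ▸ rfl
  · intro h
    rw [h, norm_zero] at hv1
    exact zero_ne_one hv1
  · intro h
    rw [h, norm_zero] at hc1
    exact zero_ne_one hc1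
  · choose h hh using fun n => hq3 (φ n) i
    -- the limits of the values
    have hlim1 : ∀ s t : ℂ, Tendsto (fun n => eval (s • (q (φ n)).1 + t • p) (G (φ n) i)) atTop
        (𝓝 (eval (s • v + t • p) (F i))) := by
      intro s t
      have h1 : Tendsto (fun n => s • (q (φ n)).1 + t • p) atTop (𝓝 (s • v + t • p)) :=
        (hlv.const_smul s).add tendsto_const_nhds
      have h2 : Tendsto (fun n => eval (s • (q (φ n)).1 + t • p) (F i)) atTop
          (𝓝 (eval (s • v + t • p) (F i))) :=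
        ((MvPolynomial.continuous_eval (F i)).tendsto _).comp h1
      have h3 : Tendsto (fun n => (((φ n : ℕ) : ℂ) + 1)⁻¹) atTop (𝓝 0) := by
        have h4 : Tendsto (fun n : ℕ => ((n : ℂ) + 1)⁻¹) atTop (𝓝 0) := by
          have := tendsto_one_div_add_atTop_nhds_zero_nat (𝕜 := ℂ)
          simpa using this
        exact h4.comp hφ.tendsto_atTop
      have h5 : Tendsto (fun n => (s • (q (φ n)).1 + t • p) i0 ^ d i) atTop
          (𝓝 ((s • v + t • p) i0 ^ d i)) :=
        (((continuous_apply i0).tendsto _).comp h1).pow _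
      have h6 := h2.add (h3.mul h5)
      rw [zero_mul, add_zero] at h6
      refine h6.congr fun n => ?_
      rw [hGe]
    -- the quotients are bounded
    obtain ⟨μ, hμ, hlow⟩ := Ps_low k (d i - k)
    obtain ⟨B, hB⟩ : ∃ B : ℝ, ∀ n, ‖h n‖ ≤ B := by
      have h1 : Tendsto (fun n => Ps k (d i - k) ((q (φ n)).2, h n)) atTop
          (𝓝 (∑ a ∈ Finset.range (k + (d i - k) + 1),
            ‖eval ((1 : ℂ) • v + (a : ℂ) • p) (F i)‖)) := by
        unfold Ps
        refine tendsto_finsetSum _ fun a _ => ?_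
        refine ((hlim1 1 a).norm).congr fun n => ?_
        rw [hh]
      obtain ⟨B, hB⟩ := h1.bddAbove_range
      refine ⟨B / μ, fun n => ?_⟩
      rw [le_div_iff₀ hμ, mul_comm]
      exact (hlow _ _ (hq2 _)).trans (hB ⟨n, rfl⟩)
    obtain ⟨h', -, ψ, hψ, hl'⟩ := (isCompact_closedBall (0 : Fin (d i - k + 1) → ℂ) B).tendsto_subseq
      (x := h) fun n => mem_closedBall_zero_iff.2 (hB n)
    refine ⟨h', fun s t => ?_⟩
    have h1 := (hlim1 s t).comp hψ.tendsto_atTop
    have h2 : Tendsto (fun n => bform k (q (φ (ψ n))).2 s t * bform (d i - k) (h (ψ n)) s t) atTop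
        (𝓝 (bform k c s t * bform (d i - k) h' s t)) :=
      (((bform_cont2 k s t).tendsto _).comp (hlc.comp hψ.tendsto_atTop)).mul
        (((bform_cont2 (d i - k) s t).tendsto _).comp hl')
    refine tendsto_nhds_unique h1 (h2.congr fun n => ?_)
    rw [← hh]
    rfl

end Pool.Agent.T6.H51.SC
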